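import Pool.Agent.N594.CT.Stm

/-!
# Project CT (helper594), part W: the weighted form of the class
-/

set_option autoImplicit false

open Finset
open scoped Classical

namespace Pool.Agent.N749.CT.W

open Pool.Agent.N594.CT

theorem main : Pool.Agent.N594.CT.S_W := by
  intro t k q V H hH ι _ ρ c hc
  have hcard : Fintype.card (Fin (k * (q - 1) + 1)) = Fintype.card (Σ i, Fin (c i)) := by
    rw [Fintype.card_fin, Fintype.card_sigma]
    simp only [Fintype.card_fin]
    exact hc.symm
  obtain ⟨F⟩ : Nonempty (Fin (k * (q - 1) + 1) ≃ Σ i, Fin (c i)) :=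
    ⟨Fintype.equivOfCardEq hcard⟩
  obtain ⟨J, hJ, hInd⟩ := hH fun a => ρ (F a).1
  refine ⟨J.image fun a => (F a).1, ?_, ?_⟩
  · intro e he het hHe
    have h1 : ∀ i : ι, ∃ a : Fin (k * (q - 1) + 1), i ∈ e → a ∈ J ∧ (F a).1 = i := by
      intro i
      by_cases hi : i ∈ e
      · obtain ⟨a, ha, hai⟩ := mem_image.1 (he hi)
        exact ⟨a, fun _ => ⟨ha, hai⟩⟩
      · exact ⟨0, fun h => absurd h hi⟩
    choose a ha using h1
    have hinj : ∀ i ∈ e, ∀ j ∈ e, a i = a j → i = j := by
      intro i hi j hj hij
      rw [← (ha i hi).2, ← (ha j hj).2, hij]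
    have h2 := hInd (e.image a) (by
      intro x hx
      obtain ⟨i, hi, rfl⟩ := mem_image.1 hx
      exact (ha i hi).1) (by
      rw [card_image_of_injOn (fun i hi j hj => hinj i hi j hj)]
      exact het)
    apply h2
    have h3 : (e.image a).image (fun a => ρ (F a).1) = e.image ρ := by
      rw [image_image]
      refine image_congr fun i hi => ?_
      show ρ (F (a i)).1 = ρ i
      rw [(ha i hi).2]
    rw [h3]
    exact hHe
  · refine hJ.symm.le.trans ?_
    have h4 : ∑ i ∈ J.image (fun a => (F a).1), c i =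
        ((J.image fun a => (F a).1).sigma fun i => (univ : Finset (Fin (c i)))).card := by
      rw [card_sigma]
      simp only [card_univ, Fintype.card_fin]
    rw [h4]
    refine card_le_card_of_injOn F ?_ F.injective.injOn
    intro x hx
    rw [mem_coe, mem_sigma]
    exact ⟨mem_image_of_mem (fun a => (F a).1) hx, mem_univ _⟩

end Pool.Agent.N749.CT.W
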